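import Mathlib

/-!
Helper file: a two-valued highly oscillating function of `x - 2 t`.
-/

set_option autoImplicit false
open MeasureTheory Filter Topology Set

namespace Pool.Agent.D0H34.Gas

/-- `1` on the intervals `[2k, 2k+1)`, `0` elsewhere. -/
noncomputable def chi (y : ℝ) : ℝ := if Even ⌊y⌋ then 1 else 0

theorem chi_cases (y : ℝ) : chi y = 0 ∨ chi y = 1 := by
  unfold chi; split_ifs <;> simp

theorem chi_add_one (y : ℝ) : chi (y + 1) = 1 - chi y := by
  unfold chi
  rw [Int.floor_add_one]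
  by_cases h : Even ⌊y⌋
  · have : ¬ Even (⌊y⌋ + 1) := by
      rw [Int.even_add_one]; simpa using h
    simp [h, this]
  · have : Even (⌊y⌋ + 1) := by
      rw [Int.even_add_one]; exact h
    simp [h, this]

theorem measurable_chi : Measurable chi := by
  unfold chi
  refine Measurable.ite ?_ measurable_const measurable_const
  exact (Int.measurable_floor (R := ℝ)) (MeasurableSet.of_discrete (s := {m : ℤ | Even m}))

/-- the oscillating function -/
noncomputable def X (n : ℕ) (z : ℝ × ℝ) : ℝ := chi (((n : ℝ) + 1) * (z.1 - 2 * z.2))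

theorem X_cases (n : ℕ) (z : ℝ × ℝ) : X n z = 0 ∨ X n z = 1 := chi_cases _

theorem X_abs (n : ℕ) (z : ℝ × ℝ) : |X n z| ≤ 1 := by
  rcases X_cases n z with h | h <;> simp [h]

theorem measurable_X (n : ℕ) : Measurable (X n) := by
  unfold X
  exact measurable_chi.comp (by fun_prop)

theorem X_shift (n : ℕ) (z : ℝ × ℝ) :
    X n (z.1 + 1 / ((n : ℝ) + 1), z.2) = 1 - X n z := by
  unfold X
  rw [← chi_add_one]
  congr 1
  have : (n : ℝ) + 1 ≠ 0 := by positivity
  field_simp
  ring

/-- the shift in the direction of `x` -/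
def sh (h : ℝ) : C(ℝ × ℝ, ℝ × ℝ) := ⟨fun z => (z.1 + h, z.2), by fun_prop⟩

theorem sh_eq (h : ℝ) : (sh h : ℝ × ℝ → ℝ × ℝ) = fun z => z + (h, 0) := by
  funext z
  simp [sh, Prod.ext_iff]

theorem sh_mp (h : ℝ) : MeasurePreserving (sh h) (volume : Measure (ℝ × ℝ)) volume := by
  rw [sh_eq]
  exact measurePreserving_add_right volume ((h, 0) : ℝ × ℝ)

theorem sh_tendsto : Tendsto (fun n : ℕ => sh (1 / ((n : ℝ) + 1))) atTop (𝓝 (sh 0)) := by
  have hc : Continuous sh := by
    let F : C(ℝ × (ℝ × ℝ), ℝ × ℝ) := ⟨fun q => (q.2.1 + q.1, q.2.2), by fun_prop⟩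
    have : sh = F.curry := by
      funext h
      ext z <;> rfl
    rw [this]
    exact F.curry.continuous
  exact (hc.tendsto 0).comp tendsto_one_div_add_atTop_nhds_zero_nat

/-- continuity of the shift in `L¹` -/
theorem shift_L1 {g : ℝ × ℝ → ℝ} (hg : Integrable g) :
    Tendsto (fun n : ℕ => ∫ z, |g (sh (1 / ((n : ℝ) + 1)) z) - g z|) atTop (𝓝 0) := by
  have hmem : MemLp g 1 (volume : Measure (ℝ × ℝ)) := memLp_one_iff_integrable.2 hg
  have h1 := Filter.Tendsto.compMeasurePreservingLp (p := 1) (μ := (volume : Measure (ℝ × ℝ)))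
    (ν := (volume : Measure (ℝ × ℝ)))
    (f := fun _ : ℕ => hmem.toLp g) (f₀ := hmem.toLp g) tendsto_const_nhds sh_tendsto
    (fun n => sh_mp _) (sh_mp 0) (by simp)
  have h0 : Lp.compMeasurePreserving (sh 0) (sh_mp 0) (hmem.toLp g) = hmem.toLp g := by
    rw [Lp.toLp_compMeasurePreserving]
    congr 1
    funext z
    simp [sh]
  rw [h0, tendsto_iff_norm_sub_tendsto_zero] at h1
  refine h1.congr fun n => ?_
  rw [Lp.toLp_compMeasurePreserving, ← MemLp.toLp_sub, L1.norm_eq_integral_norm]
  refine integral_congr_ae ?_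
  filter_upwards [MemLp.coeFn_toLp ((hmem.comp_measurePreserving (sh_mp (1 / ((n : ℝ) + 1)))).sub hmem)]
    with z hz
  rw [hz]
  simp

theorem int_X_mul {g : ℝ × ℝ → ℝ} (hg : Integrable g) (n : ℕ) :
    Integrable (fun z => X n z * g z) := by
  refine hg.bdd_mul (c := 1) (measurable_X n).aestronglyMeasurable ?_
  exact ae_of_all _ fun z => by rw [Real.norm_eq_abs]; exact X_abs n z

/-- weak convergence of `X n` to `1/2` -/
theorem X_weak {g : ℝ × ℝ → ℝ} (hg : Integrable g) :
    Tendsto (fun n : ℕ => ∫ z, X n z * g z) atTop (𝓝 ((1 / 2) * ∫ z, g z)) := by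
  have key : ∀ n : ℕ, ‖(∫ z, X n z * g z) - (1 / 2) * ∫ z, g z‖ ≤
      ∫ z, |g (sh (1 / ((n : ℝ) + 1)) z) - g z| := by
    intro n
    set h : ℝ := 1 / ((n : ℝ) + 1) with hh
    have hgs : Integrable (fun z => g (sh h z)) := (sh_mp h).integrable_comp_of_integrable hg
    have e1 : ∫ z, X n z * g z = ∫ z, (1 - X n z) * g (sh h z) := by
      rw [← integral_add_right_eq_self (fun z => X n z * g z) ((h, 0) : ℝ × ℝ)]
      refine integral_congr_ae (ae_of_all _ fun z => ?_)
      have e : sh h z = z + (h, 0) := by rw [sh_eq]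
      have e' : X n (z + (h, 0)) = 1 - X n z := by
        rw [← X_shift n z]
        congr 1
        simp [Prod.ext_iff, hh]
      simp only
      rw [e', e]
    have e2 : Integrable (fun z => X n z * g (sh h z)) := int_X_mul hgs n
    have e4 : (∫ z, X n z * g z) - (1 / 2) * ∫ z, g z
        = (1 / 2) * ∫ z, (1 - X n z) * (g (sh h z) - g z) := by
      have e5 : ∫ z, (1 - X n z) * (g (sh h z) - g z)
          = (∫ z, (1 - X n z) * g (sh h z)) - ((∫ z, g z) - ∫ z, X n z * g z) := by
        rw [← integral_sub hg (int_X_mul hg n), ← integral_sub]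
        · refine integral_congr_ae (ae_of_all _ fun z => ?_)
          simp only
          ring
        · have : (fun z => (1 - X n z) * g (sh h z)) = fun z => g (sh h z) - X n z * g (sh h z) := by
            funext z; ring
          rw [this]
          exact hgs.sub e2
        · exact hg.sub (int_X_mul hg n)
      rw [e5, ← e1]
      ring
    rw [e4, norm_mul]
    have e6 : ‖∫ z, (1 - X n z) * (g (sh h z) - g z)‖ ≤ ∫ z, |g (sh h z) - g z| := by
      refine norm_integral_le_of_norm_le (hgs.sub hg).abs (ae_of_all _ fun z => ?_)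
      rw [norm_mul, Real.norm_eq_abs, Real.norm_eq_abs]
      rcases X_cases n z with hX | hX <;> simp [hX]
    have e7 : 0 ≤ ∫ z, |g (sh h z) - g z| := integral_nonneg fun z => abs_nonneg _
    calc ‖(1 / 2 : ℝ)‖ * ‖∫ z, (1 - X n z) * (g (sh h z) - g z)‖
        ≤ 1 * ∫ z, |g (sh h z) - g z| := by
          refine mul_le_mul ?_ e6 (norm_nonneg _) zero_le_one
          norm_num
      _ = _ := one_mul _
  rw [tendsto_iff_norm_sub_tendsto_zero]
  exact squeeze_zero (fun n => norm_nonneg _) key (shift_L1 hg)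

end Pool.Agent.D0H34.Gas
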